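import Mathlib
import Pool.Agent.H63.AC.Stm

/-!
# Project AC (helper63): the lower bound (by helper720)
-/

set_option autoImplicit false

namespace Pool.Agent.H720.AC

open Complex MeasureTheory Filter Topology Pool.Agent.H63.AC

theorem wt_eq (c T H u : ℝ) (hH : 0 < H) : wt T H (1 - ln c u) =
    cexp (-((1 / H ^ 2 : ℝ) : ℂ) * (((u + T : ℝ) : ℂ) + ((1 - c : ℝ) : ℂ) * I) ^ 2) := by
  unfold wt ln
  congr 1
  have hH' : (H : ℂ) ≠ 0 := by exact_mod_cast hH.ne'
  push_cast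
  field_simp
  ring_nf
  rw [I_sq]
  ring

theorem wt_norm (c T H u : ℝ) (hH : 0 < H) : ‖wt T H (1 - ln c u)‖ =
    Real.exp ((1 - c) ^ 2 / H ^ 2) * Real.exp (-(1 / H ^ 2) * (u + T) ^ 2) := by
  rw [wt_eq c T H u hH, norm_exp, ← Real.exp_add]
  congr 1
  have h1 : (((u + T : ℝ) : ℂ) + ((1 - c : ℝ) : ℂ) * I) ^ 2 =
      (((u + T) ^ 2 - (1 - c) ^ 2 : ℝ) : ℂ) + ((2 * (u + T) * (1 - c) : ℝ) : ℂ) * I := by
    push_cast
    ring_nf
    rw [I_sq]
    ring
  rw [h1, neg_mul, neg_re, re_ofReal_mul, add_re, ofReal_re, re_ofReal_mul, I_re]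
  field_simp
  ring

theorem gauss_int (T H : ℝ) (hH : 0 < H) :
    ∫ u : ℝ, Real.exp (-(1 / H ^ 2) * (u + T) ^ 2) = Real.sqrt Real.pi * H := by
  rw [integral_add_right_eq_self (fun x : ℝ => Real.exp (-(1 / H ^ 2) * x ^ 2)) T,
    integral_gaussian]
  have h1 : Real.pi / (1 / H ^ 2) = Real.pi * H ^ 2 := by
    field_simp
  rw [h1, Real.sqrt_mul Real.pi_pos.le, Real.sqrt_sq hH.le]

theorem gauss_intb (T H : ℝ) (hH : 0 < H) :
    Integrable (fun u : ℝ => Real.exp (-(1 / H ^ 2) * (u + T) ^ 2)) := by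
  have h0 : 0 < 1 / H ^ 2 := by positivity
  exact (integrable_exp_neg_mul_sq h0).comp_add_right T

theorem wt_int (c T H : ℝ) (hH : 0 < H) :
    ∫ u : ℝ, wt T H (1 - ln c u) = ((Real.sqrt Real.pi * H : ℝ) : ℂ) := by
  have h0 : 0 < 1 / H ^ 2 := by positivity
  have h1 : ∀ u : ℝ, wt T H (1 - ln c u) = (fun x : ℝ =>
      cexp (-((1 / H ^ 2 : ℝ) : ℂ) * ((x : ℂ) + ((1 - c : ℝ) : ℂ) * I) ^ 2)) (u + T) :=
    fun u => wt_eq c T H u hH
  rw [integral_congr_ae (Filter.Eventually.of_forall h1),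
    integral_add_right_eq_self (fun x : ℝ =>
      cexp (-((1 / H ^ 2 : ℝ) : ℂ) * ((x : ℂ) + ((1 - c : ℝ) : ℂ) * I) ^ 2)) T,
    GaussianFourier.integral_cexp_neg_mul_sq_add_real_mul_I (by rwa [ofReal_re])]
  have h2 : (Real.pi : ℂ) / ((1 / H ^ 2 : ℝ) : ℂ) = ((Real.pi * H ^ 2 : ℝ) : ℂ) := by
    rw [← ofReal_div]
    congr 1
    field_simp
  have h3 : (0 : ℝ) ≤ Real.pi * H ^ 2 := by positivity
  have h4 : (1 / 2 : ℂ) = ((1 / 2 : ℝ) : ℂ) := by push_cast; rfl
  rw [h2, h4, ← ofReal_cpow h3, ← Real.sqrt_eq_rpow, Real.sqrt_mul Real.pi_pos.le,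
    Real.sqrt_sq hH.le]

/-- **LOW.** -/
theorem t_low : S_low := by
  intro U c T H hU hH hc hU1
  have hwc : Continuous fun u : ℝ => wt T H (1 - ln c u) := by
    unfold wt ln
    fun_prop
  have hlc : Continuous fun u : ℝ => ln c u := by
    unfold ln
    fun_prop
  have hUc : Continuous fun u : ℝ => U (ln c u) := hU.comp hlc
  have hwi : Integrable fun u : ℝ => wt T H (1 - ln c u) := by
    refine Integrable.mono' ((gauss_intb T H hH).const_mul (Real.exp ((1 - c) ^ 2 / H ^ 2)))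
      hwc.aestronglyMeasurable (Filter.Eventually.of_forall fun u => ?_)
    exact (wt_norm c T H u hH).le
  have hwn : ∫ u : ℝ, ‖wt T H (1 - ln c u)‖ =
      Real.exp ((1 - c) ^ 2 / H ^ 2) * (Real.sqrt Real.pi * H) := by
    rw [integral_congr_ae (Filter.Eventually.of_forall fun u => wt_norm c T H u hH),
      integral_const_mul, gauss_int T H hH]
  -- the difference
  have hdn : ∀ u : ℝ, ‖(U (ln c u) - 1) * wt T H (1 - ln c u)‖ ≤
      1 / 4 * ‖wt T H (1 - ln c u)‖ := fun u => by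
    rw [norm_mul]
    exact mul_le_mul_of_nonneg_right (hU1 u) (norm_nonneg _)
  have hdi : Integrable fun u : ℝ => (U (ln c u) - 1) * wt T H (1 - ln c u) := by
    refine Integrable.mono' (hwi.norm.const_mul (1 / 4))
      ((hUc.sub continuous_const).mul hwc).aestronglyMeasurable
      (Filter.Eventually.of_forall hdn)
  have hsplit : ∫ u : ℝ, U (ln c u) * wt T H (1 - ln c u) =
      (∫ u : ℝ, wt T H (1 - ln c u)) + ∫ u : ℝ, (U (ln c u) - 1) * wt T H (1 - ln c u) := by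
    rw [← integral_add hwi hdi]
    refine integral_congr_ae (Filter.Eventually.of_forall fun u => ?_)
    show U (ln c u) * wt T H (1 - ln c u) = wt T H (1 - ln c u) +
      (U (ln c u) - 1) * wt T H (1 - ln c u)
    ring
  have hd : ‖∫ u : ℝ, (U (ln c u) - 1) * wt T H (1 - ln c u)‖ ≤
      1 / 4 * (Real.exp ((1 - c) ^ 2 / H ^ 2) * (Real.sqrt Real.pi * H)) := by
    rw [← hwn, ← integral_const_mul]
    exact norm_integral_le_of_norm_le (hwi.norm.const_mul (1 / 4))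
      (Filter.Eventually.of_forall hdn)
  have hexp : Real.exp ((1 - c) ^ 2 / H ^ 2) ≤ 2 := by
    have h1 : (1 - c) ^ 2 / H ^ 2 ≤ 1 / 4 := by
      rw [div_le_iff₀ (by positivity)]
      have h2 : |c - 1| ≤ H / 2 := by linarith
      have h3 : (c - 1) ^ 2 ≤ (H / 2) ^ 2 := by
        rw [← sq_abs (c - 1)]
        exact pow_le_pow_left₀ (abs_nonneg _) h2 2
      nlinarith
    have h4 : Real.exp ((1 - c) ^ 2 / H ^ 2) ≤ Real.exp (Real.log 2) := by
      apply Real.exp_le_exp.2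
      linarith [Real.log_two_gt_d9]
    rwa [Real.exp_log two_pos] at h4
  have hpi : 1 ≤ Real.sqrt Real.pi := by
    apply Real.le_sqrt_of_sq_le
    linarith [Real.pi_gt_three]
  have hpos : 0 ≤ Real.sqrt Real.pi * H := by positivity
  have hH1 : H ≤ Real.sqrt Real.pi * H := le_mul_of_one_le_left hH.le hpi
  have hm : ‖∫ u : ℝ, wt T H (1 - ln c u)‖ = Real.sqrt Real.pi * H := by
    rw [wt_int c T H hH, norm_real, Real.norm_of_nonneg hpos]
  have hd2 : ‖∫ u : ℝ, (U (ln c u) - 1) * wt T H (1 - ln c u)‖ ≤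
      1 / 2 * (Real.sqrt Real.pi * H) := by
    refine hd.trans ?_
    have := mul_le_mul_of_nonneg_right hexp hpos
    linarith
  rw [hsplit]
  have htri := norm_sub_le_norm_add (∫ u : ℝ, wt T H (1 - ln c u))
    (∫ u : ℝ, (U (ln c u) - 1) * wt T H (1 - ln c u))
  rw [hm] at htri
  linarith

end Pool.Agent.H720.AC
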